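import Mathlib
import Pool.Agent.N576.MX2.E

set_option autoImplicit false

/-!
# Project MX2 (helper576): the numerical part
-/

namespace Pool.Agent.N832.MX2F

open Pool.Agent.H499R2 Pool.Agent.TH880.MK Pool.Agent.N576.MK Pool.Agent.N576.MX2
open Pool.Agent.N576.MX (lm_double total_le Exc)

/-- few branches off a path -/
theorem path0_of (h1 : PFTOTAL) (h2 : COMBP) : PATH0 := by
  classical
  obtain ⟨C0, hC0, L0, hL0, hChL, -⟩ := count_num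
  obtain ⟨C1, hC1, hcomb⟩ := h2
  refine ⟨25441 * 82 ^ 13 * (L0 + 1) * (C1 + 6), 18, by positivity, ?_⟩
  intro H P S hH hS
  have hH1 : 1 ≤ H := by omega
  have hl2 := lm_two hH1
  have hl0 : 0 ≤ lm H := by linarith
  have hl1 : 1 ≤ lm H := by linarith
  choose! d l φ e1 e2 e3 e4 e5 e6 using hS
  have F : PFam H P S l φ := ⟨fun m hm => ⟨d m, e1 m hm, e2 m hm⟩, e3, e4, e5, e6⟩
  obtain ⟨ρ, hρd⟩ : ∃ ρ, ρ = rh (2 * H) := ⟨_, rfl⟩
  obtain ⟨f1, f2, f3, -, -, -, -⟩ := rh_facts (H := 2 * H) (by omega)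
  rw [← hρd] at f1 f2 f3
  rw [show 2 * (2 * H) = 4 * H by ring] at f1
  have f4 : (ρ : ℝ) ≤ 82 * lm H := by linarith [lm_double hH1]
  have hρ2 : (2 : ℝ) ≤ ρ := by exact_mod_cast f3
  have hρ0 : (0 : ℝ) ≤ ρ := by linarith
  have hρ8 : (1 : ℝ) ≤ (ρ : ℝ) ^ 8 := one_le_pow₀ (by linarith)
  have hC8 : 0 ≤ C1 * (ρ : ℝ) ^ 8 := by positivity
  have hb := h1 hH1 f3 f1 (hChL H hH) F (B1 := C1 * (ρ : ℝ) ^ 8 + 6) (by
    intro T hT hc
    obtain ⟨P', hP'⟩ := hc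
    choose! N d' g1 g2 g3 using hP'
    have := hcomb H ρ P P' T l φ N d d' hH f3 f1 (fun m hm =>
      ⟨e1 m (hT hm), e2 m (hT hm), g1 m hm, g2 m hm, g3 m hm, e3 m (hT hm), e4 m (hT hm),
        e5 m (hT hm), e6 m (hT hm)⟩)
    linarith)
  refine hb.trans ((total_le hρ2 (by positivity) (by linarith)).trans ?_)
  have g1 : (ρ : ℝ) ^ 13 ≤ (82 * lm H) ^ 13 := pow_le_pow_left₀ hρ0 f4 13
  have g2 : L0 * lm H ^ 5 + 1 ≤ (L0 + 1) * lm H ^ 5 := by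
    have : (1 : ℝ) ≤ lm H ^ 5 := one_le_pow₀ hl1
    linarith
  have g3 : C1 * (ρ : ℝ) ^ 8 + 6 ≤ (C1 + 6) * (ρ : ℝ) ^ 8 := by linarith
  calc 25441 * (ρ : ℝ) ^ 5 * (L0 * lm H ^ 5 + 1) * (C1 * (ρ : ℝ) ^ 8 + 6)
      ≤ 25441 * (ρ : ℝ) ^ 5 * ((L0 + 1) * lm H ^ 5) * ((C1 + 6) * (ρ : ℝ) ^ 8) := by gcongr
    _ = 25441 * (L0 + 1) * lm H ^ 5 * (C1 + 6) * (ρ : ℝ) ^ 13 := by ring
    _ ≤ 25441 * (L0 + 1) * lm H ^ 5 * (C1 + 6) * (82 * lm H) ^ 13 := by gcongr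
    _ = 25441 * 82 ^ 13 * (L0 + 1) * (C1 + 6) * lm H ^ 18 := by ring

/-- the number of exceptional words -/
theorem finalx_of (h1 : PATH0) (h2 : CLSX) : FINALX := by
  classical
  obtain ⟨-, -, L0, hL0, hChL, -⟩ := count_num
  obtain ⟨C0, n, hC0, hP⟩ := h1
  intro ε hε
  obtain ⟨C', hC'⟩ : ∃ C' : ℝ, C' = C0 * 4 ^ n + 1 := ⟨_, rfl⟩
  have hC'0 : 0 < C' := by rw [hC']; positivity
  have hC'1 : 1 ≤ C' := by
    have : 0 ≤ C0 * 4 ^ n := by positivity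
    linarith
  obtain ⟨C, hC, h⟩ := count_eps ε hε (2 * n + 5) (4 * (L0 + C' + 1) * C') (by positivity)
  refine ⟨C, hC, fun H Z hH hZ => ?_⟩
  rcases lt_or_ge H 2 with hlt | hH2
  · rw [empty_of_one hlt Z (fun l hl => (hZ l hl).1)]
    simp only [Finset.card_empty, Nat.cast_zero]
    positivity
  have hl := lm_two hH
  have hl1 : 1 ≤ lm H := by linarith
  have hl0 : 0 ≤ lm H := by linarith
  have hl4 : lm (4 * H) ≤ 4 * lm H := by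
    have a := lm_double (H := 2 * H) (by omega)
    have b := lm_double hH
    rw [show 2 * (2 * H) = 4 * H by ring] at a
    linarith
  have hl40 : 0 ≤ lm (4 * H) := by linarith [lm_two (show 1 ≤ 4 * H by omega)]
  have hn1 : 1 ≤ lm H ^ n := one_le_pow₀ hl1
  have hB1 : 1 ≤ C' * lm H ^ n := by nlinarith
  have hpath : ∀ (P : List Bool) (S : Finset ℕ),
      (∀ m ∈ S, ∃ d l φ, P.take m ++ [d] <+: l ∧ P.take m ++ [!d] <+: P ∧
        sz l ≤ 4 * H ∧ sz φ ≤ 4 * H ∧ φ ≠ l ∧ FF φ = FF l) → (S.card : ℝ) ≤ C' * lm H ^ n := by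
    intro P S hS
    refine (hP (4 * H) P S (by omega) hS).trans ?_
    have e1 : lm (4 * H) ^ n ≤ (4 * lm H) ^ n := pow_le_pow_left₀ hl40 hl4 n
    calc C0 * lm (4 * H) ^ n ≤ C0 * (4 * lm H) ^ n := mul_le_mul_of_nonneg_left e1 hC0.le
      _ = (C0 * 4 ^ n) * lm H ^ n := by rw [mul_pow]; ring
      _ ≤ C' * lm H ^ n := by
          apply mul_le_mul_of_nonneg_right _ (by positivity)
          rw [hC']
          linarith
  have hcls := h2 H (s0 H) (L0 * lm H ^ 5) (C' * lm H ^ n) hH2 (hChL H hH2) hB1 hpath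
  have key := h H hH2 (fun l => Exw l ∧ sz l ≤ H) _ 1 _ le_rfl (by positivity) ?_ hcls Z
    (fun l hl => ?_)
  · rwa [mul_one] at key
  · rw [mul_one]
    have e5 : (1 : ℝ) ≤ lm H ^ 5 := one_le_pow₀ hl1
    have a1 : L0 * lm H ^ 5 ≤ L0 * lm H ^ (n + 5) :=
      mul_le_mul_of_nonneg_left (pow_le_pow_right₀ hl1 (by omega)) hL0.le
    have a2 : C' * lm H ^ n ≤ C' * lm H ^ (n + 5) :=
      mul_le_mul_of_nonneg_left (pow_le_pow_right₀ hl1 (by omega)) hC'0.le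
    have a3 : (1 : ℝ) ≤ lm H ^ (n + 5) := one_le_pow₀ hl1
    have a4 : L0 * lm H ^ 5 + C' * lm H ^ n + 1 ≤ (L0 + C' + 1) * lm H ^ (n + 5) := by linarith
    calc 4 * (L0 * lm H ^ 5 + C' * lm H ^ n + 1) * (C' * lm H ^ n)
        ≤ 4 * ((L0 + C' + 1) * lm H ^ (n + 5)) * (C' * lm H ^ n) := by gcongr
      _ = 4 * (L0 + C' + 1) * C' * lm H ^ (2 * n + 5) := by ring
  · obtain ⟨hs, l', hs', hne, hval⟩ := hZ l hl
    exact ⟨⟨⟨l', hne, hval⟩, hs⟩, hs, l', hs', hne, hval⟩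

end Pool.Agent.N832.MX2F
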